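import Pool.Agent.W206.YP.Stm

/-!
# SPX: coordinates up to isogeny
-/

set_option autoImplicit false

namespace Pool.Agent.W143.YP.SPX

open MvPolynomial UpperHalfPlane H294ZP Pool.Agent.W206.CT Pool.Agent.W206.YP

theorem rel_iff (hP : S_PN) (hC : S_CMA) (ι : Type) (ω : ι → ℂ) (T : Finset ι) :
    RelT ω T ↔ ∀ t ∈ T, CMv (ω t) ∨ ∃ u, u ∉ T ∧ Iso (ω t) (ω u) := by
  constructor
  · intro h t ht
    rcases h t ht with ⟨c, hc, he⟩ | ⟨u, hu, F, ⟨N, hN, hF⟩, h0⟩
    · left
      rw [he]
      exact hc
    · right
      exact ⟨u, hu, N, hN, (hF _ _).1 h0⟩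
  · intro h t ht
    rcases h t ht with hc | ⟨u, hu, N, hN, hi⟩
    · left
      obtain ⟨c, hc'⟩ := hC.1 _ hc
      refine ⟨c, ?_, ?_⟩
      · rw [hc']
        exact hc
      · exact hc'.symm
    · right
      obtain ⟨F, -, hF⟩ := hP N hN
      exact ⟨u, hu, F, ⟨N, hN, hF⟩, (hF _ _).2 hi⟩

theorem reps (hE : S_EQV) {σ : Type} (ω : σ → ℂ) (J : Finset σ) :
    ∃ R : Finset σ, R ⊆ J ∧ (∀ i ∈ R, ¬ CMv (ω i)) ∧
      (∀ i ∈ R, ∀ j ∈ R, i ≠ j → ¬ Iso (ω i) (ω j)) ∧
      ∀ i ∈ J, i ∉ R → CMv (ω i) ∨ ∃ j ∈ R, Iso (ω i) (ω j) := by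
  classical
  induction J using Finset.induction_on with
  | empty =>
    exact ⟨∅, Finset.Subset.refl _, by simp, by simp, by simp⟩
  | insert a J ha ih =>
    obtain ⟨R, hRJ, h1, h2, h3⟩ := ih
    by_cases hc : CMv (ω a) ∨ ∃ j ∈ R, Iso (ω a) (ω j)
    · refine ⟨R, hRJ.trans (Finset.subset_insert _ _), h1, h2, ?_⟩
      intro i hi hiR
      rcases Finset.mem_insert.1 hi with rfl | hi
      · exact hc
      · exact h3 i hi hiR
    · push Not at hc
      refine ⟨insert a R, Finset.insert_subset_insert _ hRJ, ?_, ?_, ?_⟩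
      · intro i hi
        rcases Finset.mem_insert.1 hi with rfl | hi
        · exact hc.1
        · exact h1 i hi
      · intro i hi j hj hij
        rcases Finset.mem_insert.1 hi with hia | hiR
        · rcases Finset.mem_insert.1 hj with hja | hjR
          · exact absurd (hia.trans hja.symm) hij
          · rw [hia]
            exact hc.2 j hjR
        · rcases Finset.mem_insert.1 hj with hja | hjR
          · rw [hja]
            intro h
            exact hc.2 i hiR (hE.2.1 _ _ h)
          · exact h2 i hiR j hjR hij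
      · intro i hi hiR
        rcases Finset.mem_insert.1 hi with rfl | hi
        · exact absurd (Finset.mem_insert_self _ _) hiR
        · rcases h3 i hi (fun h => hiR (Finset.mem_insert_of_mem h)) with h | ⟨j, hj, h⟩
          · exact Or.inl h
          · exact Or.inr ⟨j, Finset.mem_insert_of_mem hj, h⟩

theorem main : S_SPX := by
  intro hE hP hC
  refine ⟨rel_iff hP hC, ?_⟩
  intro σ _ ω
  classical
  constructor
  · obtain ⟨J, -, h1, h2, h3⟩ := reps hE ω Finset.univ
    refine ⟨J, h1, h2, fun i hi => h3 i (Finset.mem_univ _) hi,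
      Finset.univ.filter (fun i => i ∉ J), by simp, ?_⟩
    rw [rel_iff hP hC]
    intro t ht
    rw [Finset.mem_filter] at ht
    rcases h3 t (Finset.mem_univ _) ht.2 with h | ⟨j, hj, h⟩
    · exact Or.inl h
    · exact Or.inr ⟨j, by simp [hj], h⟩
  · intro J _ T hT
    obtain ⟨R, hRJ, h1, h2, h3⟩ := reps hE ω J
    rw [rel_iff hP hC] at hT
    refine ⟨Finset.univ.filter (fun j : J => (j : σ) ∉ R), ?_, ?_⟩
    · rw [rel_iff hP hC]
      intro t ht
      rw [Finset.mem_filter] at ht
      rcases h3 t t.2 ht.2 with h | ⟨j, hj, h⟩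
      · exact Or.inl h
      · exact Or.inr ⟨⟨j, hRJ hj⟩, by simp [hj], h⟩
    · -- cardinalities
      have hcard : (Finset.univ.filter (fun j : J => (j : σ) ∉ R)).card + R.card = J.card := by
        have e1 : (Finset.univ.filter (fun j : J => (j : σ) ∉ R)).card = (J \ R).card := by
          rw [← Finset.card_map ⟨Subtype.val, Subtype.val_injective⟩]
          congr 1
          ext x
          simp only [Finset.mem_map, Finset.mem_filter, Finset.mem_univ, true_and,
            Function.Embedding.coeFn_mk, Finset.mem_sdiff]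
          constructor
          · rintro ⟨y, hy, rfl⟩
            exact ⟨y.2, hy⟩
          · rintro ⟨hx, hxR⟩
            exact ⟨⟨x, hx⟩, hxR, rfl⟩
        rw [e1]
        exact Finset.card_sdiff_add_card_eq_card hRJ
      have hle : R.card + T.card ≤ Fintype.card σ := by
        have hex : ∀ r ∈ R, ∃ u, u ∉ T ∧ Iso (ω r) (ω u) := by
          intro r hr
          by_cases hrT : r ∈ T
          · rcases hT r hrT with h | h
            · exact absurd h (h1 r hr)
            · exact h
          · exact ⟨r, hrT, hE.1 _⟩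
        choose! f hf1 hf2 using hex
        have : R.card ≤ (Finset.univ \ T).card := by
          refine Finset.card_le_card_of_injOn f ?_ ?_
          · intro r hr
            have := hf1 r hr
            simpa using this
          · intro r hr r' hr' he
            by_contra hne
            have i1 := hf2 r hr
            have i2 := hf2 r' hr'
            have he' : f r = f r' := he
            rw [he'] at i1
            exact h2 r hr r' hr' hne (hE.2.2.2.1 _ _ _ i1 (hE.2.1 _ _ i2))
        have h2 := Finset.card_sdiff_add_card_eq_card (Finset.subset_univ T)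
        rw [Finset.card_univ] at h2
        omega
      omega

end Pool.Agent.W143.YP.SPX
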